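import Mathlib
import Pool.Agent.Work.MP_41f3d4_co.Convert
import Pool.Agent.Work.MP_41f3d4_co.Full

set_option autoImplicit false

namespace Pool.Agent.Results.MP_41f3d4_co.FullExplicit

open Pool.Agent.Work.MP_41f3d4_co

theorem F_le_explicit (k : ℕ) : ∃ c : ℕ, ∀ m, 1 ≤ m → F k m ≤ c * m ^ (k ^ 2 + 5 * k + 2) := by
  induction k with
  | zero =>
    refine ⟨1, fun m hm => ?_⟩
    have : 1 ≤ m ^ (0 ^ 2 + 5 * 0 + 2) := Nat.one_le_pow _ _ hm
    simp only [F]
    omega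
  | succ k ih =>
    obtain ⟨c, hc⟩ := ih
    refine ⟨6 * (k + 1) * (c + 2), fun m hm => ?_⟩
    rw [F]
    have h1 := hc m hm
    have h3 : m ^ (2 * (k + 1)) ≤ m ^ (k ^ 2 + 5 * k + 2) :=
      Nat.pow_le_pow_right hm (by nlinarith)
    have h4 : 1 ≤ m ^ (k ^ 2 + 5 * k + 2) := Nat.one_le_pow _ _ hm
    have h5 : F k m + m ^ (2 * (k + 1)) + 1 ≤ (c + 2) * m ^ (k ^ 2 + 5 * k + 2) := by
      have : (c + 2) * m ^ (k ^ 2 + 5 * k + 2) = c * m ^ (k ^ 2 + 5 * k + 2) +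
        m ^ (k ^ 2 + 5 * k + 2) + m ^ (k ^ 2 + 5 * k + 2) := by ring
      omega
    calc (2 * (3 * ((k + 1) * m ^ (2 * (k + 1))) * m * m) * m * m) *
          (F k m + m ^ (2 * (k + 1)) + 1)
        ≤ (2 * (3 * ((k + 1) * m ^ (2 * (k + 1))) * m * m) * m * m) *
          ((c + 2) * m ^ (k ^ 2 + 5 * k + 2)) := Nat.mul_le_mul_left _ h5
      _ = 6 * (k + 1) * (c + 2) * m ^ ((k + 1) ^ 2 + 5 * (k + 1) + 2) := by
          ring

/-- **Q1, with an explicit exponent.**  For every `k` there is a constant `c` such that every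
finite graph with a tree decomposition of induced matching width at most `k` satisfies
`χ ≤ c * ω ^ (k ^ 2 + 5 * k + 2)`. -/
theorem result : ∀ k : ℕ, ∃ c : ℕ, ∀ (V : Type) [Fintype V] (G : SimpleGraph V),
    (∃ n : ℕ, ∃ T : SimpleGraph (Fin n), ∃ bag : Fin n → Finset V,
      T.IsTree ∧
      (∀ v : V, ∃ i : Fin n, v ∈ bag i) ∧
      (∀ u v : V, G.Adj u v → ∃ i : Fin n, u ∈ bag i ∧ v ∈ bag i) ∧
      (∀ v : V, ∀ i j : Fin n, v ∈ bag i → v ∈ bag j →
        ∃ p : T.Walk i j, ∀ x ∈ p.support, v ∈ bag x) ∧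
      (∀ i : Fin n, ∀ S : Finset V,
        (∀ v ∈ S, ∃! u : V, u ∈ S ∧ G.Adj v u) →
        (∀ v ∈ S, ∃ u ∈ S, G.Adj v u ∧ (v ∈ bag i ∨ u ∈ bag i)) →
        S.card ≤ 2 * k)) →
    G.chromaticNumber ≤ ((c * G.cliqueNum ^ (k ^ 2 + 5 * k + 2) : ℕ) : ℕ∞) := by
  intro k
  obtain ⟨c, hcd⟩ := F_le_explicit k
  refine ⟨c, ?_⟩
  intro V _ G hyp
  classical
  by_cases hm : 1 ≤ G.cliqueNum
  · obtain ⟨n, T, bag, hT, h1, h2, h3, h4⟩ := hyp
    obtain ⟨R, r, B, hr, hTD, hmu⟩ := convert G k n T bag hT h1 h2 h3 h4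
    have hcf : G.CliqueFree (G.cliqueNum + 1) := by
      intro s hs
      have := hs.isClique.card_le_cliqueNum
      rw [hs.card_eq] at this
      omega
    have hcol := main_color R G.cliqueNum k G B hTD hmu hcf
    exact (hcol.mono (hcd _ hm)).chromaticNumber_le
  · have hV : IsEmpty V := by
      by_contra hne
      rw [not_isEmpty_iff] at hne
      obtain ⟨v⟩ := hne
      apply hm
      have h : G.IsClique ({v} : Finset V) := by simp
      have := h.card_le_cliqueNum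
      simpa using this
    have h0 : G.Colorable 0 := ⟨SimpleGraph.Coloring.mk (fun v => (hV.false v).elim)
      (fun {v} => (hV.false v).elim)⟩
    exact h0.chromaticNumber_le.trans (by simp)

end Pool.Agent.Results.MP_41f3d4_co.FullExplicit
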